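import Pool.Agent.PakH

set_option autoImplicit false
set_option linter.unusedSectionVars false

namespace Pool.Agent.Results.MP_c130e3_pr.SeparationCriterionFails

open Filter Topology Finset

section defs

variable {S : Type} [Fintype S] [DecidableEq S] (Q : Matrix S S ℝ) (ϖ : S → ℝ)

/-- `Q` is the generator of a continuous-time Markov chain. -/
def IsGenerator : Prop := (∀ x y, x ≠ y → 0 ≤ Q x y) ∧ ∀ x, ∑ y, Q x y = 0

/-- The chain is irreducible. -/
def Irred : Prop := ∀ x y, Relation.ReflTransGen (fun a b => 0 < Q a b) x y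

/-- The chain is reversible with respect to the probability `ϖ`. -/
def IsReversible : Prop :=
  (∀ x, 0 < ϖ x) ∧ ∑ x, ϖ x = 1 ∧ ∀ x y, ϖ x * Q x y = ϖ y * Q y x

/-- heat kernel `H_t(x,y) = exp(t Q)(x,y)` -/
noncomputable def heat (t : ℝ) : Matrix S S ℝ := NormedSpace.exp (t • Q)

/-- separation distance, maximised over the starting state -/
noncomputable def sep (t : ℝ) : ℝ := ⨆ x, ⨆ y, (1 - heat Q t x y / ϖ y)

/-- spectral gap: the smallest nonzero eigenvalue of `-Q` -/
noncomputable def gap : ℝ :=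
  sInf {l : ℝ | l ≠ 0 ∧ ∃ f : S → ℝ, f ≠ 0 ∧ ∀ x, ∑ y, -(Q x y) * f y = l * f x}

/-- `inf {t ≥ 0 : d(t) ≤ ε}` -/
noncomputable def mixTime (ε : ℝ) : ℝ := sInf {t : ℝ | 0 ≤ t ∧ sep Q ϖ t ≤ ε}

end defs

/-- the uniform law -/
noncomputable def unif {n : ℕ} (π : Pak.Params n) : Pak.VV π → ℝ :=
  fun _ => 1 / Fintype.card (Pak.VV π)

lemma cardpos {n : ℕ} (π : Pak.Params n) : (0 : ℝ) < Fintype.card (Pak.VV π) := by
  exact_mod_cast (Fintype.card_pos : 0 < Fintype.card (Pak.VV π))

lemma sep_eq {n : ℕ} (π : Pak.Params n) (t : ℝ) :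
    sep (Pak.QQ π) (unif π) t = Pak.csep π t := rfl

lemma mix_eq {n : ℕ} (π : Pak.Params n) :
    mixTime (Pak.QQ π) (unif π) (1 / 4) = Pak.seps π := rfl

lemma gap_ge {n : ℕ} (π : Pak.Params n) (hn : 1 ≤ n) : 1 / 3 ≤ gap (Pak.QQ π) := by
  unfold gap
  apply le_csInf
  · exact ⟨Pak.lq π, (Pak.lq_pos π).ne', Pak.ev π, Pak.ev_ne π, Pak.ev_Q π⟩
  · rintro l ⟨hl, f, hf, hlf⟩
    exact Pak.Q_eig_real π hn f hf l hl hlf

lemma QQ_gen {n : ℕ} (π : Pak.Params n) : IsGenerator (Pak.QQ π) := by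
  classical
  constructor
  · intro x y hxy
    unfold Pak.QQ
    rw [Matrix.smul_apply, Matrix.sub_apply, Matrix.one_apply_ne hxy, sub_zero, smul_eq_mul]
    have h := Pak.PP_nonneg π 1 x y
    rw [pow_one] at h
    positivity
  · intro x
    unfold Pak.QQ
    simp only [Matrix.smul_apply, Matrix.sub_apply, smul_eq_mul]
    rw [← mul_sum, sum_sub_distrib]
    have h := Pak.PP_row π 1 x
    rw [pow_one] at h
    rw [h]
    simp [Matrix.one_apply]

lemma QQ_pos {n : ℕ} (π : Pak.Params n) (x y : Pak.VV π) (h : (Pak.GG π).Adj x y) :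
    0 < Pak.QQ π x y := by
  classical
  unfold Pak.QQ
  rw [Matrix.smul_apply, Matrix.sub_apply, Matrix.one_apply_ne h.ne, sub_zero, smul_eq_mul,
    Pak.PP_apply', if_neg h.ne, if_pos h, zero_add]
  have := Pak.cc_pos π
  positivity

lemma QQ_irred {n : ℕ} (π : Pak.Params n) : Irred (Pak.QQ π) := by
  intro x y
  have h := (Pak.GG_conn π).preconnected x y
  rw [SimpleGraph.reachable_iff_reflTransGen] at h
  exact Relation.ReflTransGen.mono (fun a b hab => QQ_pos π a b hab) x y h

lemma QQ_rev {n : ℕ} (π : Pak.Params n) : IsReversible (Pak.QQ π) (unif π) := by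
  have hV := cardpos π
  refine ⟨fun x => by unfold unif; positivity, ?_, ?_⟩
  · unfold unif
    rw [sum_const, card_univ, nsmul_eq_mul]
    field_simp
  · intro x y
    unfold unif Pak.QQ
    simp only [Matrix.smul_apply, Matrix.sub_apply, smul_eq_mul]
    rw [Pak.PP_symm, Matrix.one_apply, Matrix.one_apply]
    simp only [eq_comm]

/-- **Main theorem.** For the separation distance, conditions (1) `λ_n t_n → ∞` and (2) cutoff at
time `t_n` are not equivalent for all families of irreducible reversible finite continuous-time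
chains. -/
theorem result :
    ¬ (∀ (S : ℕ → Type) [∀ n, Fintype (S n)] [∀ n, DecidableEq (S n)]
        (Q : ∀ n, Matrix (S n) (S n) ℝ) (ϖ : ∀ n, S n → ℝ),
        (∀ n, IsGenerator (Q n)) → (∀ n, Irred (Q n)) → (∀ n, IsReversible (Q n) (ϖ n)) →
        ∀ M : ℝ, M = limsup (fun n => sep (Q n) (ϖ n) 0) atTop →
        ∀ ε : ℝ, 0 < ε → ε < M →
        (Tendsto (fun n => gap (Q n) * mixTime (Q n) (ϖ n) ε) atTop atTop ↔
          ∀ δ : ℝ, 0 < δ → δ < 1 →
            Tendsto (fun n => sep (Q n) (ϖ n) ((1 + δ) * mixTime (Q n) (ϖ n) ε)) atTop (𝓝 0) ∧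
            Tendsto (fun n => sep (Q n) (ϖ n) ((1 - δ) * mixTime (Q n) (ϖ n) ε)) atTop (𝓝 M))) := by
  classical
  intro H
  have h100 : ∀ n : ℕ, 100 ≤ n + 100 := fun n => by omega
  have hM : (1 : ℝ) = limsup (fun n : ℕ => sep (Pak.QQ (Pak.par n)) (unif (Pak.par n)) 0) atTop := by
    have : (fun n : ℕ => sep (Pak.QQ (Pak.par n)) (unif (Pak.par n)) 0) = fun _ => (1 : ℝ) := by
      funext n
      rw [sep_eq]
      exact Pak.csep_zero _ (by omega)
    rw [this, limsup_const]
  have h1 := (H (fun n => Pak.VV (Pak.par n)) (fun n => Pak.QQ (Pak.par n))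
    (fun n => unif (Pak.par n)) (fun n => QQ_gen _) (fun n => QQ_irred _) (fun n => QQ_rev _)
    1 hM (1 / 4) (by norm_num) (by norm_num)).1
    (by
      have h3 : Tendsto (fun n : ℕ => (n : ℝ) / 60) atTop atTop :=
        tendsto_natCast_atTop_atTop.atTop_div_const (by norm_num)
      apply tendsto_atTop_mono _ h3
      intro n
      rw [mix_eq]
      have h4 := Pak.seps_ge (Pak.par n) (h100 n)
      have h5 := gap_ge (Pak.par n) (by omega)
      push_cast at h4
      have hn0 : (0 : ℝ) ≤ n := by positivity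
      calc (n : ℝ) / 60 = 1 / 3 * (n / 20) := by ring
        _ ≤ gap (Pak.QQ (Pak.par n)) * Pak.seps (Pak.par n) :=
          mul_le_mul h5 (by linarith) (by positivity) (by linarith))
  have h2 := (h1 (1 / 2000) (by norm_num) (by norm_num)).2
  have h6 : ∀ n : ℕ, sep (Pak.QQ (Pak.par n)) (unif (Pak.par n))
      ((1 - 1 / 2000) * mixTime (Pak.QQ (Pak.par n)) (unif (Pak.par n)) (1 / 4)) ≤
      1 - 1 / 2000 := by
    intro n
    rw [mix_eq, sep_eq]
    have h4 := Pak.seps_ge (Pak.par n) (h100 n)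
    have h7 := Pak.csep_le (Pak.par n) (by omega)
      (show 0 ≤ (1 - 1 / 2000) * Pak.seps (Pak.par n) by
        have : (0 : ℝ) ≤ ((n + 100 : ℕ) : ℝ) / 20 := by positivity
        have h8 : 0 ≤ Pak.seps (Pak.par n) := this.trans h4
        positivity)
    exact h7.trans (Pak.num_mid (Pak.par n) (h100 n) h4)
  have h7 := le_of_tendsto h2 (Eventually.of_forall h6)
  norm_num at h7

end Pool.Agent.Results.MP_c130e3_pr.SeparationCriterionFails
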